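import Pool.Agent.Q72.AL.Stm4

/-! JOB ABB of project AL (helper72). -/

set_option autoImplicit false

open Complex MeasureTheory Filter Topology Set
open H345 (Zo aa XX)

namespace Pool.Agent.Q231.AL.ABB

open Pool.Agent.Q72.AL

theorem abb (h : J_AB) : J_ABB := by
  intro rh
  obtain ⟨C, X0, hC, hX0⟩ := h rh
  refine ⟨4 * C, 4 * |X0| + 32, by positivity, ?_⟩
  intro X hX hsim hsp t ht ht1 ht2
  have habs : X0 ≤ |X0| := le_abs_self X0
  have habs0 : 0 ≤ |X0| := abs_nonneg X0
  have hXpos : 32 ≤ X := by linarith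
  have key : ∀ X' : ℝ, X / 4 ≤ X' → X' ≤ 4 * X → X' / 3 ≤ t → t ≤ 5 * X' →
      ‖aa t‖ ≤ Real.exp (4 * C * Real.log X ^ 2) := by
    intro X' h1 h2 h3 h4
    have hlogs : 0 < Real.log (X / 16) := Real.log_pos (by linarith)
    have hlog1 : Real.log (X / 16) ≤ Real.log X' :=
      Real.log_le_log (by linarith) (by linarith)
    have hlog2 : Real.log X' ≤ 2 * Real.log X := by
      have h5 : Real.log X' ≤ Real.log (X * X) :=
        Real.log_le_log (by linarith) (by nlinarith)
      rw [Real.log_mul (by linarith) (by linarith)] at h5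
      linarith
    have hb := hX0 X' (by linarith)
      (fun s hs hs1 hs2 => hsim s hs (by linarith) (by linarith))
      (fun s hs s' hs' hs1 hs2 hs3 =>
        le_trans (one_div_le_one_div_of_le hlogs hlog1)
          (hsp s hs s' hs' (by linarith) hs2 (by linarith)))
      t ht h3 h4
    refine hb.trans (Real.exp_le_exp.2 ?_)
    have h6 : 0 ≤ Real.log X' := by linarith
    have h7 : Real.log X' ^ 2 ≤ (2 * Real.log X) ^ 2 := pow_le_pow_left₀ h6 hlog2 2
    have h8 := mul_le_mul_of_nonneg_left h7 hC.le
    nlinarith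
  rcases le_or_gt t (5 * X / 4) with h1 | h1
  · exact key (X / 4) le_rfl (by linarith) (by linarith) (by linarith)
  · rcases le_or_gt t (5 * X) with h2 | h2
    · exact key X (by linarith) (by linarith) (by linarith) h2
    · exact key (4 * X) (by linarith) le_rfl (by linarith) (by linarith)

end Pool.Agent.Q231.AL.ABB
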